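import Pool.Agent.H17.ZF.MIDB

/-!
Row MID of the board zf (MP_52e316_nt): the middle primes of one block.
-/

set_option autoImplicit false

namespace Pool.Agent.H17.ZF

open Finset Pool.Agent.H27.ZF

theorem pf_MID (hNEW : T_NEW) (hESL : T_ESL) (hLBD : T_LBD) (hESD : T_ESD) (hESQ : T_ESQ) :
    T_MID := by
  intro m d hm hd hd2
  obtain ⟨C₀, hC₀, hL⟩ := hLBD m hm
  have hmr : (1 : ℝ) ≤ m := by exact_mod_cast hm
  refine ⟨d / 8, 36 * (8 * m * 2 ^ m), C₀ ^ (4 / d), by positivity, by positivity,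
    Real.one_le_rpow hC₀ (by positivity), ?_⟩
  intro lam q Q z0 z hE hQ hz0 hz hSq s hs hDp j k hj hk hkm
  have hlogQ : 0 ≤ Real.log Q := Real.log_nonneg hQ
  have hkr : (1 : ℝ) ≤ k := by exact_mod_cast hk
  have hkm' : (k : ℝ) ≤ m := by exact_mod_cast hkm
  have hj1 : (0 : ℝ) ≤ (j : ℝ) - 1 := by
    have : (1 : ℝ) ≤ j := by exact_mod_cast hj
    linarith
  obtain ⟨y, hy⟩ : ∃ y : ℝ, y = (2 : ℝ) ^ (-(((j : ℝ) - 1) * k * (d / 4))) := ⟨_, rfl⟩
  have hy0 : 0 < y := by rw [hy]; positivity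
  have hy1 : y ≤ 1 := by
    rw [hy]
    refine Real.rpow_le_one_of_one_le_of_nonpos (by norm_num) ?_
    have : 0 ≤ ((j : ℝ) - 1) * k * (d / 4) := by positivity
    linarith
  -- the single terms
  have hnorm : ∀ p : ℕ, 0 < p → ‖(p : ℂ) ^ (-((k : ℂ) * s))‖ = (p : ℝ) ^ (-(k * s.re)) := by
    intro p hp
    rw [Complex.norm_natCast_cpow_of_pos hp]
    simp
  have hx : ∀ p ∈ UP z0 z j, ‖lam (p ^ k) * (p : ℂ) ^ (-((k : ℂ) * s))‖ ≤ y := by
    intro p hp
    unfold UP at hp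
    obtain ⟨hp1, hpp, hpz0, hpz⟩ := mem_filter.1 hp
    obtain ⟨hp2, hp3⟩ := mem_Ioc.1 hp1
    have hp0 : (0 : ℝ) < p := by exact_mod_cast hpp.pos
    have hp1' : (1 : ℝ) ≤ p := by exact_mod_cast hpp.one_le
    have hpQ : (p : ℝ) ^ (4 * m) ≤ Q := (pow_le_pow_left₀ hp0.le hpz _).trans hz
    have h1 := hL lam q Q (d / 8) hE hQ (by positivity) (by linarith) hSq p hpp hpQ k hkm
    rw [norm_mul, hnorm p hpp.pos]
    have hCp : C₀ ≤ (p : ℝ) ^ (d / 4) := by
      have h3 : C₀ ^ (4 / d) ≤ p := hz0.trans hpz0.le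
      have h4 := Real.rpow_le_rpow (by positivity) h3 (by positivity : 0 ≤ d / 4)
      rw [← Real.rpow_mul (by linarith)] at h4
      have h5 : 4 / d * (d / 4) = 1 := by field_simp
      rwa [h5, Real.rpow_one] at h4
    calc ‖lam (p ^ k)‖ * (p : ℝ) ^ (-(k * s.re))
        ≤ (C₀ * (p : ℝ) ^ (k * (1 / 2 + 4 * (d / 8)))) * (p : ℝ) ^ (-(k * s.re)) :=
          mul_le_mul_of_nonneg_right h1 (by positivity)
      _ ≤ ((p : ℝ) ^ (d / 4) * (p : ℝ) ^ (k * (1 / 2 + 4 * (d / 8)))) *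
            (p : ℝ) ^ (-(k * s.re)) := by gcongr
      _ = (p : ℝ) ^ (d / 4 + k * (1 / 2 + 4 * (d / 8)) + -(k * s.re)) := by
          rw [← Real.rpow_add hp0, ← Real.rpow_add hp0]
      _ ≤ (p : ℝ) ^ (-(k * (d / 4))) := by
          refine Real.rpow_le_rpow_of_exponent_le hp1' ?_
          have e1 : (k : ℝ) * (1 / 2 + d) ≤ k * s.re := mul_le_mul_of_nonneg_left hs (by positivity)
          have e2 : 1 * (d / 4) ≤ (k : ℝ) * (d / 4) :=
            mul_le_mul_of_nonneg_right hkr (by positivity)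
          nlinarith
      _ ≤ ((2 : ℝ) ^ ((j : ℝ) - 1)) ^ (-(k * (d / 4))) := by
          refine Real.rpow_le_rpow_of_nonpos (by positivity) ?_ (by
            have : 0 ≤ (k : ℝ) * (d / 4) := by positivity
            linarith)
          have h6 : ((2 ^ (j - 1) : ℕ) : ℝ) ≤ p := by exact_mod_cast hp2.le
          have h7 : (2 : ℝ) ^ ((j : ℝ) - 1) = ((2 ^ (j - 1) : ℕ) : ℝ) := by
            push_cast
            rw [← Real.rpow_natCast 2 (j - 1), Nat.cast_sub hj]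
            simp
          rw [h7]
          exact h6
      _ = y := by
          rw [hy, ← Real.rpow_mul (by norm_num)]
          congr 1
          ring
  refine ⟨fun p hp => (hx p hp).trans hy1, ?_⟩
  -- no primes
  rcases (UP z0 z j).eq_empty_or_nonempty with hU | hU
  · rw [hU]
    simp only [sum_empty, norm_zero, add_zero]
    positivity
  -- the size of `2 ^ (j k)`
  have h2 : (2 : ℝ) ^ (j * k) ≤ Q := by
    obtain ⟨p, hp⟩ := hU
    unfold UP at hp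
    obtain ⟨hp1, hpp, hpz0, hpz⟩ := mem_filter.1 hp
    obtain ⟨hp2, hp3⟩ := mem_Ioc.1 hp1
    have hp2r : (2 : ℝ) ≤ p := by exact_mod_cast hpp.two_le
    have hz2 : (2 : ℝ) ≤ z := hp2r.trans hpz
    have h3 : 2 ^ j ≤ 2 * p := by
      have : 2 ^ j = 2 * 2 ^ (j - 1) := by
        rw [← pow_succ']
        congr 1
        omega
      omega
    have h3r : (2 : ℝ) ^ j ≤ 2 * p := by exact_mod_cast h3
    have h4 : (2 : ℝ) ^ j ≤ z ^ 2 := by nlinarith
    calc (2 : ℝ) ^ (j * k) = (2 ^ j) ^ k := by rw [pow_mul]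
      _ ≤ (z ^ 2) ^ k := pow_le_pow_left₀ (by positivity) h4 _
      _ = z ^ (2 * k) := by rw [← pow_mul]
      _ ≤ z ^ (4 * m) := pow_le_pow_right₀ (by linarith) (by omega)
      _ ≤ Q := hz
  obtain ⟨l1, l2, l3, l4⟩ := lf_facts Q j k hQ hj hk h2
  have hES := hE1 hESD m d hd hd2 lam q Q z0 z hE hQ s hs hDp j k hj hk hkm h2 y hy
  have hEQ := hE2 hESQ m d hd hd2 lam q Q z0 z hE hQ s.re hs hSq j k hj hk hkm h2 y hy
  obtain ⟨l, hl⟩ : ∃ l, l = lf Q j k := ⟨_, rfl⟩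
  rw [← hl] at l1 l2 l3 l4 hES hEQ
  have hlr : (1 : ℝ) ≤ l := by exact_mod_cast l1
  obtain ⟨x, hxd⟩ : ∃ x : ℕ → ℂ, x = fun p => lam (p ^ k) * (p : ℂ) ^ (-((k : ℂ) * s)) :=
    ⟨_, rfl⟩
  have hxp : ∀ p ∈ UP z0 z j, ‖x p‖ ≤ y := by
    intro p hp
    rw [hxd]
    exact hx p hp
  have hsum1 : ∑ p ∈ UP z0 z j, lam (p ^ k) * (p : ℂ) ^ (-((k : ℂ) * s)) =
      ∑ i : {p // p ∈ UP z0 z j}, x i := by
    rw [sum_coe_sort (UP z0 z j) x, hxd]
  have hsum2 : ∑ p ∈ UP z0 z j, ‖lam (p ^ k) * (p : ℂ) ^ (-((k : ℂ) * s))‖ ^ 2 =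
      ∑ i : {p // p ∈ UP z0 z j}, ‖x i‖ ^ 2 := by
    rw [sum_coe_sort (UP z0 z j) (fun p => ‖x p‖ ^ 2), hxd]
  rw [hsum1, hsum2]
  obtain ⟨V, hV⟩ : ∃ V : ℝ, V = ∑ i : {p // p ∈ UP z0 z j}, ‖x i‖ ^ 2 := ⟨_, rfl⟩
  obtain ⟨T, hT⟩ : ∃ T : ℝ, T = ‖∑ i : {p // p ∈ UP z0 z j}, x i‖ := ⟨_, rfl⟩
  obtain ⟨CV, hCV⟩ : ∃ CV : ℝ, CV = 8 * m * 2 ^ m := ⟨_, rfl⟩
  have h2m : (1 : ℝ) ≤ 2 ^ m := one_le_pow₀ (by norm_num)
  have hCV8 : 8 ≤ CV := by
    rw [hCV]
    nlinarith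
  have hV0 : 0 ≤ V := by
    rw [hV]
    positivity
  have hT0 : 0 ≤ T := by
    rw [hT]
    positivity
  rw [← hV, ← hT, ← hCV]
  -- squares
  have hVb : V ≤ CV * l * y ^ 2 := by
    by_cases hc : 2 * l * y ^ 2 ≤ V
    · have h3 := hESL {p // p ∈ UP z0 z j} (fun i => ‖x i‖ ^ 2) (y ^ 2) l
        (fun i => ⟨by positivity, pow_le_pow_left₀ (norm_nonneg _) (hxp i i.2) 2⟩)
        (by rw [← hV]; exact hc)
      rw [← hV, ps_sub (UP z0 z j) (fun p => ‖x p‖ ^ 2) l] at h3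
      have h4 : ∑ S ∈ powersetCard l (UP z0 z j), ∏ p ∈ S, ‖x p‖ ^ 2 =
          ∑ S ∈ powersetCard l (UP z0 z j), ∏ p ∈ S,
            (‖lam (p ^ k)‖ ^ 2 * (p : ℝ) ^ (-(2 * k * s.re))) := by
        refine sum_congr rfl fun S hS => prod_congr rfl fun p hp => ?_
        have hpU := (mem_powersetCard.1 hS).1 hp
        have hp0 : 0 < p := by
          unfold UP at hpU
          exact (mem_filter.1 hpU).2.1.pos
        rw [hxd]
        simp only
        rw [norm_mul, hnorm p hp0, mul_pow, ← Real.rpow_natCast _ 2,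
          ← Real.rpow_natCast ((p : ℝ) ^ (-(k * s.re))) 2, ← Real.rpow_mul (by positivity)]
        congr 2
        push_cast
        ring
      rw [h4] at h3
      have h5 := rootl l l1 (V / 2) (2 * m) (2 ^ m * y ^ 2) (by positivity) (by linarith)
        (by positivity) (h3.trans hEQ)
      rw [hCV]
      nlinarith
    · push Not at hc
      have h6 : 2 * l * y ^ 2 ≤ CV * l * y ^ 2 := by
        have : 0 ≤ (l : ℝ) * y ^ 2 := by positivity
        nlinarith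
      linarith
  -- first powers
  have hTb : T ≤ 8 * CV * l * y := by
    by_cases hc1 : 4 * l * y ≤ T
    · by_cases hc2 : 8 * V * l ≤ T ^ 2
      · have h3 := hNEW {p // p ∈ UP z0 z j} (fun i => x i) y V l l1 (fun i => hxp i i.2)
          (by rw [← hV]) (by rw [← hT]; exact hc1) (by rw [← hT]; exact hc2)
        rw [← hT, ps_sub (UP z0 z j) x l] at h3
        have h4 : ∑ S ∈ powersetCard l (UP z0 z j), ∏ p ∈ S, x p =
            ES lam (UP z0 z j) k l s := by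
          unfold ES
          rw [hxd]
        rw [h4] at h3
        have h5 := rootl l l1 (T / 2) m (2 ^ m * y) (by positivity) hmr (by positivity)
          (h3.trans hES)
        have h6 : 0 ≤ (m : ℝ) * 2 ^ m * l * y := by positivity
        rw [hCV]
        nlinarith
      · push Not at hc2
        have h7 : 8 * V * l ≤ 8 * (CV * l * y ^ 2) * l := by gcongr
        have h8 : 8 * (CV * l * y ^ 2) * l ≤ (8 * CV * l * y) ^ 2 := by
          have h9 : 0 ≤ CV * (l : ℝ) ^ 2 * y ^ 2 := by positivity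
          nlinarith
        have h9 : T ^ 2 ≤ (8 * CV * l * y) ^ 2 := by linarith
        exact (pow_le_pow_iff_left₀ hT0 (by positivity) (by norm_num)).1 h9
    · push Not at hc1
      have h6 : 4 * l * y ≤ 8 * CV * l * y := by
        have : 0 ≤ (l : ℝ) * y := by positivity
        nlinarith
      linarith
  -- the sum
  have hyy : y ^ 2 ≤ y := by nlinarith
  have hCl : 0 ≤ CV * (l : ℝ) := by positivity
  have hTV : T + V ≤ 9 * CV * l * y := by
    have h3 : CV * l * y ^ 2 ≤ CV * l * y := mul_le_mul_of_nonneg_left hyy hCl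
    linarith
  have hyb : y ≤ 2 * (2 : ℝ) ^ (-((j : ℝ) * (d / 16))) := by
    have e0 : (2 : ℝ) * (2 : ℝ) ^ (-((j : ℝ) * (d / 16))) =
        (2 : ℝ) ^ (1 + -((j : ℝ) * (d / 16))) := by
      rw [Real.rpow_add (by norm_num), Real.rpow_one]
    rw [e0, hy]
    refine Real.rpow_le_rpow_of_exponent_le (by norm_num) ?_
    have e1 : ((j : ℝ) - 1) * 1 * (d / 4) ≤ ((j : ℝ) - 1) * k * (d / 4) := by gcongr
    have e2 : 0 ≤ (j : ℝ) * d := by positivity
    nlinarith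
  calc T + V ≤ 9 * CV * l * y := hTV
    _ ≤ 9 * CV * (2 * Real.log Q) * (2 * (2 : ℝ) ^ (-((j : ℝ) * (d / 16)))) := by
        gcongr
    _ = _ := by ring

end Pool.Agent.H17.ZF
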