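import Pool.Agent.H27.ZF.TA

/-!
Row MID of the board zf (MP_52e316_nt), preparations.
-/

set_option autoImplicit false

namespace Pool.Agent.H17.ZF

open Finset Pool.Agent.H27.ZF

theorem ps_sub {M : Type} [CommSemiring M] (U : Finset ℕ) (f : ℕ → M) (l : ℕ) :
    ∑ S ∈ powersetCard l (univ : Finset {p // p ∈ U}), ∏ i ∈ S, f i =
      ∑ S ∈ powersetCard l U, ∏ p ∈ S, f p := by
  rw [← Finset.esymm_map_val, ← Finset.esymm_map_val]
  congr 1
  have h : U.val = Multiset.map (Subtype.val : {p // p ∈ U} → ℕ)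
      (univ : Finset {p // p ∈ U}).val := by
    rw [univ_eq_attach, attach_val, Multiset.attach_map_val]
  conv_rhs => rw [h, Multiset.map_map]
  rfl

theorem rootl (l : ℕ) (hl : 1 ≤ l) (X M G : ℝ) (hX : 0 ≤ X) (hM : 1 ≤ M) (hG : 0 ≤ G)
    (h : X ^ l / (l.factorial : ℝ) ≤ M * l * G ^ l) : X ≤ 2 * M * l * G := by
  have hf : (0 : ℝ) < l.factorial := by exact_mod_cast l.factorial_pos
  have h1 : X ^ l ≤ (2 * M * l * G) ^ l := by
    rw [div_le_iff₀ hf] at h
    have a1 : (l.factorial : ℝ) ≤ (l : ℝ) ^ l := by exact_mod_cast Nat.factorial_le_pow l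
    have a2 : M ≤ M ^ l := le_self_pow₀ hM (by omega)
    have a3 : (l : ℝ) ≤ 2 ^ l := by exact_mod_cast Nat.lt_two_pow_self.le
    have hM0 : 0 ≤ M := by linarith
    calc X ^ l ≤ M * l * G ^ l * l.factorial := h
      _ ≤ M ^ l * 2 ^ l * G ^ l * (l : ℝ) ^ l := by gcongr
      _ = _ := by rw [mul_pow, mul_pow, mul_pow]; ring
  exact (pow_le_pow_iff_left₀ hX (by positivity) (by omega)).1 h1

/-- the number of factors -/
theorem lf_facts (Q : ℝ) (j k : ℕ) (hQ : 1 ≤ Q) (hj : 1 ≤ j) (hk : 1 ≤ k)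
    (h2 : (2 : ℝ) ^ (j * k) ≤ Q) :
    1 ≤ lf Q j k ∧ (2 : ℝ) ^ (j * k * lf Q j k) ≤ Q ∧
      Q ≤ (2 : ℝ) ^ (2 * ((j : ℝ) * k * lf Q j k)) ∧ (lf Q j k : ℝ) ≤ 2 * Real.log Q := by
  have hQ0 : 0 < Q := by linarith
  have hlog2 : 0 < Real.log 2 := Real.log_pos (by norm_num)
  have hjk : (1 : ℝ) ≤ (j : ℝ) * k := by
    have : 1 ≤ j * k := Nat.one_le_iff_ne_zero.2 (by positivity)
    exact_mod_cast this
  have hD : 0 < (j : ℝ) * k * Real.log 2 := by positivity
  have hlogQ : 0 ≤ Real.log Q := Real.log_nonneg hQ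
  have h0 : (j : ℝ) * k * Real.log 2 ≤ Real.log Q := by
    have h3 := Real.log_le_log (by positivity) h2
    rw [Real.log_pow] at h3
    push_cast at h3
    exact h3
  have h1 : 1 ≤ lf Q j k := by
    unfold lf
    rw [Nat.one_le_floor_iff, one_le_div hD]
    exact h0
  have h1r : (1 : ℝ) ≤ lf Q j k := by exact_mod_cast h1
  have hfl : (lf Q j k : ℝ) ≤ Real.log Q / (j * k * Real.log 2) :=
    Nat.floor_le (div_nonneg hlogQ hD.le)
  have hfl2 : Real.log Q / (j * k * Real.log 2) < lf Q j k + 1 := Nat.lt_floor_add_one _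
  refine ⟨h1, ?_, ?_, ?_⟩
  · rw [le_div_iff₀ hD] at hfl
    rw [← Real.log_le_log_iff (by positivity) hQ0, Real.log_pow]
    push_cast
    nlinarith
  · rw [div_lt_iff₀ hD] at hfl2
    rw [← Real.log_le_log_iff hQ0 (by positivity), Real.log_rpow (by norm_num)]
    nlinarith
  · rw [le_div_iff₀ hD] at hfl
    have h5 : (1 : ℝ) / 2 ≤ Real.log 2 := by
      have := Real.log_two_gt_d9
      linarith
    have h6 : (lf Q j k : ℝ) * (1 / 2) ≤ lf Q j k * (j * k * Real.log 2) := by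
      refine mul_le_mul_of_nonneg_left ?_ (by positivity)
      nlinarith
    linarith

end Pool.Agent.H17.ZF
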