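import Pool.Agent.H17.ZF.MIDA

/-!
Row MID of the board zf (MP_52e316_nt), the elementary symmetric sums.
-/

set_option autoImplicit false

namespace Pool.Agent.H17.ZF

open Finset Pool.Agent.H27.ZF

theorem hE1 (hESD : T_ESD) (m : ℕ) (d : ℝ) (hd : 0 < d) (hd2 : d ≤ 1 / 2) (lam : ℕ → ℂ)
    (q : ℕ → ℕ → ℂ) (Q z0 z : ℝ) (hE : Eul m lam q) (hQ : 1 ≤ Q) (s : ℂ)
    (hs : 1 / 2 + d ≤ s.re) (hDp : Dp m lam Q z0 z (Q ^ (d / 8)) s) (j k : ℕ) (hj : 1 ≤ j)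
    (hk : 1 ≤ k) (hkm : k ≤ m) (h2 : (2 : ℝ) ^ (j * k) ≤ Q) (y : ℝ)
    (hy : y = (2 : ℝ) ^ (-(((j : ℝ) - 1) * k * (d / 4)))) :
    ‖ES lam (UP z0 z j) k (lf Q j k) s‖ ≤ m * lf Q j k * (2 ^ m * y) ^ lf Q j k := by
  obtain ⟨l1, l2, l3, -⟩ := lf_facts Q j k hQ hj hk h2
  obtain ⟨l, hl⟩ : ∃ l, l = lf Q j k := ⟨_, rfl⟩
  have hDp' := fun r h1 h2' => hDp j k r hj hk hkm h1 h2'
  rw [← hl] at l1 l2 l3 ⊢
  simp only [← hl] at hDp'
  have hyl : ((2 : ℝ) ^ m * y) ^ l = (2 : ℝ) ^ (((m : ℝ) - ((j : ℝ) - 1) * k * (d / 4)) * l) := by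
    rw [hy, ← Real.rpow_natCast 2 m, ← Real.rpow_add (by norm_num), ← Real.rpow_natCast _ l,
      ← Real.rpow_mul (by norm_num)]
    congr 1
  have hQc : Q ^ (d / 8) ≤ (2 : ℝ) ^ (2 * ((j : ℝ) * k * l) * (d / 8)) := by
    calc Q ^ (d / 8) ≤ ((2 : ℝ) ^ (2 * ((j : ℝ) * k * l))) ^ (d / 8) :=
          Real.rpow_le_rpow (by linarith) l3 (by positivity)
      _ = _ := by rw [← Real.rpow_mul (by norm_num)]
  have h2j : (2 : ℝ) ^ j ≤ Q :=
    (pow_le_pow_right₀ (by norm_num) (Nat.le_mul_of_pos_right j hk)).trans h2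
  have hj1 : (0 : ℝ) ≤ (j : ℝ) - 1 := by
    have : (1 : ℝ) ≤ j := by exact_mod_cast hj
    linarith
  have hcard : (Icc ((j - 1) * k * l + 1) (j * k * l)).card = k * l := by
    rw [Nat.card_Icc]
    obtain ⟨j', rfl⟩ : ∃ j', j = j' + 1 := ⟨j - 1, by omega⟩
    simp only [Nat.add_sub_cancel]
    have : (j' + 1) * k * l = j' * k * l + k * l := by ring
    omega
  have hkl : (k : ℝ) * l ≤ (m : ℝ) * l := by
    have : (k : ℝ) ≤ m := by exact_mod_cast hkm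
    exact mul_le_mul_of_nonneg_right this (by positivity)
  rw [hESD m lam q hE z0 z j k l hj hk l1 s]
  refine (norm_sum_le _ _).trans ?_
  have hterm : ∀ r ∈ Icc ((j - 1) * k * l + 1) (j * k * l),
      ‖DB lam (bb (UP z0 z j) k l) r s‖ ≤ ((2 : ℝ) ^ m * y) ^ l := by
    intro r hr
    obtain ⟨r1, r2⟩ := mem_Icc.1 hr
    have h2r : (2 : ℝ) ^ r ≤ Q := (pow_le_pow_right₀ (by norm_num) r2).trans l2
    have hrr : ((j : ℝ) - 1) * k * l ≤ r := by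
      have : (j - 1) * k * l ≤ r := by omega
      have h3 : (((j - 1) * k * l : ℕ) : ℝ) ≤ r := by exact_mod_cast this
      push_cast [Nat.cast_sub hj] at h3
      exact h3
    refine (hDp' r h2j h2r).trans ?_
    rw [hyl]
    refine (mul_le_mul_of_nonneg_right hQc (by positivity)).trans ?_
    rw [← Real.rpow_add (by norm_num)]
    refine Real.rpow_le_rpow_of_exponent_le (by norm_num) ?_
    have hP : 0 ≤ ((j : ℝ) - 1) * k * l := by positivity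
    have e1 : ((j : ℝ) - 1) * k * l * d ≤ r * (s.re - 1 / 2) :=
      mul_le_mul hrr (by linarith) hd.le (by positivity)
    have e2 : (k : ℝ) * l * (d / 4) ≤ m * l := by
      have : (k : ℝ) * l * (d / 4) ≤ k * l * 1 :=
        mul_le_mul_of_nonneg_left (by linarith) (by positivity)
      linarith
    have e3 : 0 ≤ ((j : ℝ) - 1) * k * l * d := mul_nonneg hP hd.le
    have e4 : 2 * ((j : ℝ) * k * l) * (d / 8) =
        ((j : ℝ) - 1) * k * l * d / 4 + k * l * (d / 4) := by ring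
    have e5 : ((m : ℝ) - ((j : ℝ) - 1) * k * (d / 4)) * l =
        m * l - ((j : ℝ) - 1) * k * l * d / 4 := by ring
    rw [e4, e5]
    linarith
  refine (sum_le_sum hterm).trans ?_
  rw [sum_const, hcard, nsmul_eq_mul]
  push_cast
  have hy0 : 0 ≤ ((2 : ℝ) ^ m * y) ^ l := by
    rw [hyl]
    positivity
  exact mul_le_mul_of_nonneg_right hkl hy0

theorem hE2 (hESQ : T_ESQ) (m : ℕ) (d : ℝ) (hd : 0 < d) (hd2 : d ≤ 1 / 2) (lam : ℕ → ℂ)
    (q : ℕ → ℕ → ℂ) (Q z0 z : ℝ) (hE : Eul m lam q) (hQ : 1 ≤ Q) (σ : ℝ)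
    (hs : 1 / 2 + d ≤ σ) (hSq : Sq lam Q (Q ^ (2 * (d / 8)))) (j k : ℕ) (hj : 1 ≤ j)
    (hk : 1 ≤ k) (hkm : k ≤ m) (h2 : (2 : ℝ) ^ (j * k) ≤ Q) (y : ℝ)
    (hy : y = (2 : ℝ) ^ (-(((j : ℝ) - 1) * k * (d / 4)))) :
    ∑ S ∈ powersetCard (lf Q j k) (UP z0 z j), ∏ p ∈ S,
      (‖lam (p ^ k)‖ ^ 2 * (p : ℝ) ^ (-(2 * k * σ))) ≤
      (2 * m) * lf Q j k * (2 ^ m * y ^ 2) ^ lf Q j k := by
  obtain ⟨l1, l2, l3, -⟩ := lf_facts Q j k hQ hj hk h2
  obtain ⟨l, hl⟩ : ∃ l, l = lf Q j k := ⟨_, rfl⟩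
  rw [← hl] at l1 l2 l3 ⊢
  have hyl : ((2 : ℝ) ^ m * y ^ 2) ^ l =
      (2 : ℝ) ^ (((m : ℝ) - ((j : ℝ) - 1) * k * (d / 4) * 2) * l) := by
    rw [hy, ← Real.rpow_natCast 2 m, ← Real.rpow_natCast _ 2, ← Real.rpow_mul (by norm_num),
      ← Real.rpow_add (by norm_num), ← Real.rpow_natCast _ l, ← Real.rpow_mul (by norm_num)]
    congr 1
    push_cast
    ring
  have hQc : Q ^ (2 * (d / 8)) ≤ (2 : ℝ) ^ (2 * ((j : ℝ) * k * l) * (2 * (d / 8))) := by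
    calc Q ^ (2 * (d / 8)) ≤ ((2 : ℝ) ^ (2 * ((j : ℝ) * k * l))) ^ (2 * (d / 8)) :=
          Real.rpow_le_rpow (by linarith) l3 (by positivity)
      _ = _ := by rw [← Real.rpow_mul (by norm_num)]
  have hj1 : (0 : ℝ) ≤ (j : ℝ) - 1 := by
    have : (1 : ℝ) ≤ j := by exact_mod_cast hj
    linarith
  have hcard : (Icc ((j - 1) * k * l + 1) (j * k * l)).card = k * l := by
    rw [Nat.card_Icc]
    obtain ⟨j', rfl⟩ : ∃ j', j = j' + 1 := ⟨j - 1, by omega⟩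
    simp only [Nat.add_sub_cancel]
    have : (j' + 1) * k * l = j' * k * l + k * l := by ring
    omega
  have hkl : (k : ℝ) * l ≤ (m : ℝ) * l := by
    have : (k : ℝ) ≤ m := by exact_mod_cast hkm
    exact mul_le_mul_of_nonneg_right this (by positivity)
  refine (hESQ m lam q hE z0 z j k l hj hk l1 σ (by linarith)).trans ?_
  have hterm : ∀ r ∈ Icc ((j - 1) * k * l + 1) (j * k * l),
      (2 : ℝ) ^ (-(2 * σ * ((r : ℝ) - 1))) * ∑ n ∈ Bk r, ‖lam n‖ ^ 2 ≤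
        2 * ((2 : ℝ) ^ m * y ^ 2) ^ l := by
    intro r hr
    obtain ⟨r1, r2⟩ := mem_Icc.1 hr
    have h2r : (2 : ℝ) ^ r ≤ Q := (pow_le_pow_right₀ (by norm_num) r2).trans l2
    have hrr : ((j : ℝ) - 1) * k * l ≤ (r : ℝ) - 1 := by
      have h3 : (((j - 1) * k * l + 1 : ℕ) : ℝ) ≤ r := by exact_mod_cast r1
      push_cast [Nat.cast_sub hj] at h3
      linarith
    refine (mul_le_mul_of_nonneg_left (hSq r h2r) (by positivity)).trans ?_
    rw [hyl]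
    have e0 : (2 : ℝ) * (2 : ℝ) ^ (((m : ℝ) - ((j : ℝ) - 1) * k * (d / 4) * 2) * l) =
        (2 : ℝ) ^ (1 + ((m : ℝ) - ((j : ℝ) - 1) * k * (d / 4) * 2) * l) := by
      rw [Real.rpow_add (by norm_num), Real.rpow_one]
    rw [e0]
    have e1 : (2 : ℝ) ^ (-(2 * σ * ((r : ℝ) - 1))) * (Q ^ (2 * (d / 8)) * 2 ^ r) ≤
        (2 : ℝ) ^ (-(2 * σ * ((r : ℝ) - 1))) *
          ((2 : ℝ) ^ (2 * ((j : ℝ) * k * l) * (2 * (d / 8))) * 2 ^ r) := by
      gcongr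
    refine e1.trans ?_
    rw [← Real.rpow_natCast 2 r, ← Real.rpow_add (by norm_num), ← Real.rpow_add (by norm_num)]
    refine Real.rpow_le_rpow_of_exponent_le (by norm_num) ?_
    have hP : 0 ≤ ((j : ℝ) - 1) * k * l := by positivity
    have e2 : ((j : ℝ) - 1) * k * l * (2 * d) ≤ ((r : ℝ) - 1) * (2 * σ - 1) :=
      mul_le_mul hrr (by linarith) (by linarith) (hP.trans hrr)
    have e3 : (k : ℝ) * l * (d / 2) ≤ m * l := by
      have : (k : ℝ) * l * (d / 2) ≤ k * l * 1 :=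
        mul_le_mul_of_nonneg_left (by linarith) (by positivity)
      linarith
    have e4 : 0 ≤ ((j : ℝ) - 1) * k * l * d := mul_nonneg hP hd.le
    have e5 : 2 * ((j : ℝ) * k * l) * (2 * (d / 8)) =
        ((j : ℝ) - 1) * k * l * d / 2 + k * l * (d / 2) := by ring
    have e6 : ((m : ℝ) - ((j : ℝ) - 1) * k * (d / 4) * 2) * l =
        m * l - ((j : ℝ) - 1) * k * l * d / 2 := by ring
    rw [e5, e6]
    nlinarith
  refine (sum_le_sum hterm).trans ?_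
  rw [sum_const, hcard, nsmul_eq_mul]
  push_cast
  have hy0 : 0 ≤ 2 * ((2 : ℝ) ^ m * y ^ 2) ^ l := by positivity
  calc (k : ℝ) * l * (2 * (2 ^ m * y ^ 2) ^ l) ≤ (m : ℝ) * l * (2 * (2 ^ m * y ^ 2) ^ l) :=
        mul_le_mul_of_nonneg_right hkl hy0
    _ = _ := by ring

end Pool.Agent.H17.ZF
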